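import Mathlib
import Pool.Agent.Lib.MP_dcb632_co.Explicit

namespace Pool.Agent.Results.MP_dcb632_co.DenseRange

open Pool.Agent.Lib.MP_dcb632_co Filter Topology

theorem result (r : ℕ) (hr : 5 ≤ r) (γ : ℝ)
    (h0 : 1 - 1 / min (9 * (r : ℝ)) (2 * r + 14 * Real.sqrt (r * Real.log r)) ≤ γ) (h1 : γ < 1) :
    Tendsto (fun n : ℕ => (minPacking r n ⌊γ * n⌋₊ : ℝ) / (n : ℝ) ^ 2) atTop
      (𝓝 (γ / (r * (r - 1)))) := by
  rcases le_total (9 * (r : ℝ)) (2 * r + 14 * Real.sqrt (r * Real.log r)) with h | h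
  · rw [min_eq_left h] at h0
    exact (Top.par_nine hr).lim (by omega) h0 h1
  · rw [min_eq_right h] at h0
    exact (Top.par_explicit hr).lim (by omega) h0 h1

end Pool.Agent.Results.MP_dcb632_co.DenseRange
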