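import Mathlib
import Pool.Agent.Lib.MP_dcb632_co.Main

namespace Pool.Agent.Results.MP_dcb632_co.ExactNearTuran

open Pool.Agent.Lib.MP_dcb632_co

theorem result (r n δ : ℕ) (hr : 3 ≤ r) (hδ : δ + 1 ≤ n)
    (hw : (δ : ℝ) ≤ (((r : ℝ) - 2) / (r - 1) + 1 / (80000 * (r : ℝ) ^ 11)) * n) :
    minPacking r n δ =
      n % (r - 1) * (((n / (r - 1) + 1) * (n / (r - 1) + 1 - (n - δ)) + 1) / 2) +
        (r - 1 - n % (r - 1)) * ((n / (r - 1) * (n / (r - 1) - (n - δ)) + 1) / 2) := by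
  obtain ⟨k, rfl⟩ : ∃ k, r = k + 1 := ⟨r - 1, by omega⟩
  rw [Nat.add_sub_cancel]
  refine exact_fin k n δ (by omega) hδ ?_
  rcases le_total n (k * (n - δ)) with h | h
  · rw [Nat.sub_eq_zero_of_le h]
    simp
  · have hk : (0 : ℝ) < k := by exact_mod_cast (by omega : 0 < k)
    rw [← Nat.cast_le (α := ℝ)]
    push_cast [h, show δ ≤ n by omega] at hw ⊢
    have hD : (0 : ℝ) < 80000 * ((k : ℝ) + 1) ^ 11 := by positivity
    generalize 80000 * ((k : ℝ) + 1) ^ 11 = D at hw hD ⊢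
    have e : (((k : ℝ) + 1 - 2) / (k + 1 - 1) + 1 / D) * n =
        (D * ((k - 1) * n) + k * n) / (k * D) := by
      rw [add_sub_cancel_right]
      field_simp
      ring
    rw [e, le_div_iff₀ (by positivity)] at hw
    nlinarith

end Pool.Agent.Results.MP_dcb632_co.ExactNearTuran
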