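import Mathlib
import Pool.Agent.Lib.YL60.Lim

namespace Pool.Agent.Results.MP_dcb632_co.WholeRange

open Pool.Agent.Lib.MP_dcb632_co Filter Topology

theorem result (r : ℕ) (hr : 3 ≤ r) (γ : ℝ) (h0 : 0 ≤ γ) (h1 : γ < 1) (ε : ℝ) (hε : 0 < ε) :
    ∀ᶠ n : ℕ in atTop,
      (max (1 - γ) (1 / r) * (1 - ((r : ℝ) - 1) * max (1 - γ) (1 / r)) / 2 - ε) * (n : ℝ) ^ 2 ≤
        minPacking r n ⌊γ * n⌋₊ := by
  obtain ⟨k, rfl⟩ : ∃ k, r = k + 1 := ⟨r - 1, by omega⟩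
  have k0 : (0 : ℝ) < k + 1 := by positivity
  push_cast
  rw [add_sub_cancel_right]
  refine Pool.Agent.Lib.YL60.whole (by omega) h0 h1 (le_max_left _ _) ?_ hε
  have := le_max_right (1 - γ) (1 / ((k : ℝ) + 1))
  rw [div_le_iff₀ k0] at this
  linarith

end Pool.Agent.Results.MP_dcb632_co.WholeRange
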