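import Mathlib
import Pool.Agent.Lib.YL60.LimW

namespace Pool.Agent.Results.MP_dcb632_co.YusterLine

open Pool.Agent.Lib.MP_dcb632_co Filter Topology

theorem result (r : ℕ) (hr : 3 ≤ r) (γ : ℝ) (h0 : ((r : ℝ) - 2) / (r - 1) ≤ γ)
    (h1 : γ ≤ 1 - 1 / ((r : ℝ) - min (3 / 4) (400 / (r : ℝ)))) :
    Tendsto (fun n : ℕ => (minPacking r n ⌊γ * n⌋₊ : ℝ) / (n : ℝ) ^ 2) atTop
      (𝓝 ((γ - ((r : ℝ) - 2) / (r - 1)) / 2)) := by
  obtain ⟨k, rfl⟩ : ∃ k, r = k + 1 := ⟨r - 1, by omega⟩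
  have k2 : (2 : ℝ) ≤ k := by exact_mod_cast (by omega : 2 ≤ k)
  have k0 : (0 : ℝ) < k := by linarith
  push_cast at h0 h1 ⊢
  have e : γ - ((k : ℝ) + 1 - 2) / (k + 1 - 1) = 1 / k - (1 - γ) := by
    rw [add_sub_cancel_right]
    field_simp
    ring
  have m1 := min_le_left (3 / 4 : ℝ) (400 / ((k : ℝ) + 1))
  have a : 1 / ((k : ℝ) + 1 - min (3 / 4) (400 / ((k : ℝ) + 1))) ≤ 1 - γ := by linarith
  have a0 := (div_pos one_pos (by linarith)).trans_le a
  rw [div_le_iff₀ (by linarith)] at a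
  obtain ⟨c, hc⟩ : ∃ c : ℝ, c = γ - ((k : ℝ) + 1 - 2) / (k + 1 - 1) := ⟨_, rfl⟩
  rw [← hc] at e ⊢
  have c0 : 0 ≤ c := by linarith
  have ck : c * k = 1 - k * (1 - γ) := by
    rw [e]
    field_simp
  rcases le_or_gt (4 * (c * k)) (1 - γ) with q | q
  · exact Pool.Agent.Lib.YL60.line (by omega) e c0 q
  · have cp : 0 < c := by
      by_contra hn
      nlinarith
    refine Pool.Agent.Lib.YL60.line_wide (by omega) e cp ?_
    rcases le_total (3 / 4 : ℝ) (400 / ((k : ℝ) + 1)) with d | d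
    · rw [min_eq_left d] at a
      linarith
    · rw [min_eq_right d] at a
      obtain ⟨y, hy⟩ : ∃ y : ℝ, y = 400 / ((k : ℝ) + 1) := ⟨_, rfl⟩
      have y1 : y * (k + 1) = 400 := by
        rw [hy]
        field_simp
      have y0 : 0 ≤ y := by rw [hy]; positivity
      rw [← hy] at a d
      have b : c * k ≤ (1 - γ) * (1 - y) := by linarith
      refine le_of_mul_le_mul_right ?_ k0
      have b1 := mul_le_mul_of_nonneg_right b (show 0 ≤ (k : ℝ) + 400 by linarith)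
      have b2 : (1 - y) * (k + 400) ≤ k := by nlinarith
      have b3 := mul_le_mul_of_nonneg_left b2 a0.le
      linarith

end Pool.Agent.Results.MP_dcb632_co.YusterLine
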